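import Pool.Agent.Helper86.Ac.Goals

/-! Packet KRON: from the packed sum to the integer sum. -/

namespace Pool.Agent.Helper93.Ac

open Pool.Agent.Helper86.Ac Pool.Agent.Helper86.Acute

/-- digit `i` in base `X`, the last one with everything above -/
def dg (X N i : ℕ) : ℕ := if i < 12 then N / X ^ i % X else N / X ^ 12

theorem sum_dg (X N : ℕ) (m : ℕ) :
    ∑ i ∈ Finset.range m, N / X ^ i % X * X ^ i + N / X ^ m * X ^ m = N := by
  induction m with
  | zero => simp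
  | succ m ih =>
    rw [Finset.sum_range_succ]
    have h1 : N / X ^ (m + 1) = N / X ^ m / X := by
      rw [pow_succ, Nat.div_div_eq_div_mul]
    rw [h1]
    have h2 := Nat.div_add_mod (N / X ^ m) X
    calc ∑ i ∈ Finset.range m, N / X ^ i % X * X ^ i + N / X ^ m % X * X ^ m
          + N / X ^ m / X * X ^ (m + 1)
        = ∑ i ∈ Finset.range m, N / X ^ i % X * X ^ i
          + (X * (N / X ^ m / X) + N / X ^ m % X) * X ^ m := by ring
      _ = _ := by rw [h2, ih]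

theorem eq_sum_dg (X N : ℕ) : N = ∑ i ∈ Finset.range 13, dg X N i * X ^ i := by
  rw [Finset.sum_range_succ]
  have h := sum_dg X N 12
  have h1 : ∀ i ∈ Finset.range 12, dg X N i * X ^ i = N / X ^ i % X * X ^ i := by
    intro i hi
    rw [Finset.mem_range] at hi
    rw [dg, if_pos hi]
  rw [Finset.sum_congr rfl h1]
  simp only [dg, lt_irrefl, if_false]
  exact h.symm

/-- lower part of the product -/
def lo (X : ℕ) (a b : ℕ → ℕ) : ℕ := ∑ i ∈ Finset.range 13, ∑ j ∈ Finset.range 13,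
  if i + j < 12 then a i * b j * X ^ (i + j) else 0

/-- upper part of the product -/
def hi (X : ℕ) (a b : ℕ → ℕ) : ℕ := ∑ i ∈ Finset.range 13, ∑ j ∈ Finset.range 13,
  if 12 < i + j then a i * b j * X ^ (i + j - 13) else 0

theorem split (X : ℕ) (a b : ℕ → ℕ) :
    (∑ i ∈ Finset.range 13, a i * X ^ i) * (∑ j ∈ Finset.range 13, b j * X ^ j) =
      lo X a b + X ^ 12 * (∑ i ∈ Finset.range 13, a i * b (12 - i)) + X ^ 13 * hi X a b := by
  have hmid : ∀ i ∈ Finset.range 13, a i * b (12 - i) =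
      ∑ j ∈ Finset.range 13, if i + j = 12 then a i * b j else 0 := by
    intro i hi
    rw [Finset.mem_range] at hi
    rw [Finset.sum_eq_single (12 - i)]
    · rw [if_pos (by omega)]
    · intro j hj hne
      rw [if_neg (by omega)]
    · intro h
      exact absurd (Finset.mem_range.2 (by omega)) h
  rw [Finset.sum_congr rfl hmid, lo, hi, Finset.sum_mul_sum, Finset.mul_sum, Finset.mul_sum,
    ← Finset.sum_add_distrib, ← Finset.sum_add_distrib]
  apply Finset.sum_congr rfl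
  intro i _
  rw [Finset.mul_sum, Finset.mul_sum, ← Finset.sum_add_distrib, ← Finset.sum_add_distrib]
  apply Finset.sum_congr rfl
  intro j _
  rcases lt_trichotomy (i + j) 12 with h | h | h
  · rw [if_pos h, if_neg (by omega), if_neg (by omega), pow_add]
    ring
  · rw [if_neg (by omega), if_pos h, if_neg (by omega)]
    have : X ^ 12 = X ^ i * X ^ j := by rw [← pow_add, h]
    rw [this]
    ring
  · rw [if_neg (by omega), if_neg (by omega), if_pos h]
    have : X ^ i * X ^ j = X ^ 13 * X ^ (i + j - 13) := by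
      rw [← pow_add, ← pow_add]
      congr 1
      omega
    calc a i * X ^ i * (b j * X ^ j) = a i * b j * (X ^ i * X ^ j) := by ring
      _ = _ := by rw [this]; ring

theorem lo_le (a b : ℕ → ℕ) (ha : ∀ i, i < 12 → a i ≤ 2 ^ 18) (hb : ∀ i, i < 12 → b i ≤ 2 ^ 18) :
    lo (2 ^ 48) a b ≤ 2 ^ 569 := by
  have h1 : lo (2 ^ 48) a b ≤ ∑ i ∈ Finset.range 13, ∑ j ∈ Finset.range 13,
      if i + j < 12 then 2 ^ 18 * 2 ^ 18 * (2 ^ 48) ^ (i + j) else 0 := by
    apply Finset.sum_le_sum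
    intro i _
    apply Finset.sum_le_sum
    intro j _
    by_cases h : i + j < 12
    · rw [if_pos h, if_pos h]
      exact Nat.mul_le_mul_right _ (Nat.mul_le_mul (ha i (by omega)) (hb j (by omega)))
    · rw [if_neg h, if_neg h]
  refine h1.trans ?_
  decide +kernel

/-- packed sum of `m` products -/
def Val (N : ℕ) (t : ℤ) (m : ℕ) : Prop := ∃ l v h : ℕ, N = l + 2 ^ 576 * v + 2 ^ 624 * h ∧
  l ≤ m * 2 ^ 569 ∧ v ≤ m * (43 * 2 ^ 36) ∧ (v : ℤ) = m * (33 * 2 ^ 34) + t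

theorem Val.congr {N m m' : ℕ} {t t' : ℤ} (h : Val N t m) (ht : t = t') (hm : m = m') :
    Val N t' m' := by
  subst ht hm
  exact h

theorem Val.add {N N' m m' : ℕ} {t t' : ℤ} (h : Val N t m) (h' : Val N' t' m') :
    Val (Nat.add N N') (t + t') (m + m') := by
  obtain ⟨l, v, u, h1, h2, h3, h4⟩ := h
  obtain ⟨l', v', u', h1', h2', h3', h4'⟩ := h'
  refine ⟨l + l', v + v', u + u', ?_, ?_, ?_, ?_⟩
  · change N + N' = _
    rw [h1, h1']
    ring
  · rw [add_mul]
    exact Nat.add_le_add h2 h2'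
  · rw [add_mul]
    exact Nat.add_le_add h3 h3'
  · push_cast
    rw [h4, h4']
    ring

/-- the digits of a flag -/
def au (f : F) (i : ℕ) : ℕ := dg (2 ^ 48) f.A i

/-- the digits of a reversed flag -/
def bu (f : F) (i : ℕ) : ℕ := dg (2 ^ 48) f.B i

theorem dg_lt {N i : ℕ} (h : i < 12) : dg (2 ^ 48) N i = N / 2 ^ (48 * i) % 2 ^ 48 := by
  rw [dg, if_pos h, pow_mul]

theorem dg_12 (N : ℕ) : dg (2 ^ 48) N 12 = N / 2 ^ 576 := by
  rw [dg, if_neg (lt_irrefl _), ← pow_mul]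

theorem au_zero {f : F} (hf : Good f) : au f 0 = 1 := by
  rw [au, dg_lt (by norm_num)]
  simpa using hf.1

theorem bu_zero {f : F} (hf : Good f) : bu f 0 = 1 := by
  rw [bu, dg_lt (by norm_num)]
  simpa using hf.2.2.2.1

theorem bu_12 {f : F} (hf : Good f) : bu f 12 = au f 12 := by
  rw [bu, au, dg_12, dg_12]
  exact hf.2.2.2.2.1

theorem bu_rev {f : F} (hf : Good f) {i : ℕ} (h1 : 1 ≤ i) (h2 : i < 12) :
    bu f i = au f (12 - i) := by
  rw [bu, au, dg_lt h2, dg_lt (by omega)]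
  obtain ⟨k, rfl⟩ : ∃ k, i = k + 1 := ⟨i - 1, by omega⟩
  have := hf.2.2.2.2.2 k (by omega)
  rw [this]
  have e : 12 - (k + 1) = 11 - k := by omega
  rw [e]

theorem au_le {f : F} (hf : Good f) {i : ℕ} (h2 : i < 12) : au f i ≤ 2 ^ 18 := by
  rcases Nat.eq_zero_or_pos i with h | h
  · rw [h, au_zero hf]
    norm_num
  · obtain ⟨k, rfl⟩ : ∃ k, i = k + 1 := ⟨i - 1, by omega⟩
    rw [au, dg_lt h2]
    exact hf.2.2.1 k (by omega)

theorem bu_le {f : F} (hf : Good f) {i : ℕ} (h2 : i < 12) : bu f i ≤ 2 ^ 18 := by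
  rcases Nat.eq_zero_or_pos i with h | h
  · rw [h, bu_zero hf]
    norm_num
  · rw [bu_rev hf h h2]
    exact au_le hf (by omega)

theorem au_12_lt {f : F} (hf : Good f) : au f 12 < 2 ^ 40 := by
  rw [au, dg_12]
  exact hf.2.1

/-- the middle digit -/
def md (f g : F) : ℕ := au f 12 + au g 12 + ∑ k ∈ Finset.range 11, au f (k + 1) * au g (k + 1)

theorem mid_eq {f g : F} (hf : Good f) (hg : Good g) :
    ∑ i ∈ Finset.range 13, au f i * bu g (12 - i) = md f g := by
  rw [Finset.sum_range_succ, Finset.sum_range_succ', md]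
  have h0 : au f 0 * bu g (12 - 0) = au g 12 := by
    rw [au_zero hf, one_mul]
    exact bu_12 hg
  have h12 : au f 12 * bu g (12 - 12) = au f 12 := by
    rw [Nat.sub_self, bu_zero hg, mul_one]
  have hs : ∀ k ∈ Finset.range 11, au f (k + 1) * bu g (12 - (k + 1)) =
      au f (k + 1) * au g (k + 1) := by
    intro k hk
    rw [Finset.mem_range] at hk
    rw [bu_rev hg (by omega) (by omega)]
    congr 2
    omega
  rw [h0, h12, Finset.sum_congr rfl hs]
  ring

theorem md_le {f g : F} (hf : Good f) (hg : Good g) : md f g ≤ 43 * 2 ^ 36 := by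
  have h1 : ∑ k ∈ Finset.range 11, au f (k + 1) * au g (k + 1) ≤ 11 * (2 ^ 18 * 2 ^ 18) := by
    calc ∑ k ∈ Finset.range 11, au f (k + 1) * au g (k + 1)
        ≤ ∑ _k ∈ Finset.range 11, 2 ^ 18 * 2 ^ 18 := by
          apply Finset.sum_le_sum
          intro k hk
          rw [Finset.mem_range] at hk
          exact Nat.mul_le_mul (au_le hf (by omega)) (au_le hg (by omega))
      _ = 11 * (2 ^ 18 * 2 ^ 18) := by simp
  have h2 := au_12_lt hf
  have h3 := au_12_lt hg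
  rw [md]
  norm_num at h1 h2 h3 ⊢
  omega

theorem md_cast {f g : F} : (md f g : ℤ) = 33 * 2 ^ 34 + dotF f g := by
  have hr : ∀ (f : F), ∀ k ∈ Finset.range 11, rr f k = (au f (k + 1) : ℤ) - 2 ^ 17 := by
    intro f k hk
    rw [Finset.mem_range] at hk
    rw [rr, au, dg_lt (by omega)]
  have ha : ∀ (f : F), acZ f = (au f 12 : ℤ) - 11 * 2 ^ 35 +
      2 ^ 17 * ∑ k ∈ Finset.range 11, (au f (k + 1) : ℤ) := by
    intro f
    rw [acZ, au, dg_12]
    congr 2
    apply Finset.sum_congr rfl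
    intro k hk
    rw [hr f k hk]
    ring
  have hp : ∑ k ∈ Finset.range 11, rr f k * rr g k =
      ∑ k ∈ Finset.range 11, (au f (k + 1) : ℤ) * au g (k + 1)
      - 2 ^ 17 * ∑ k ∈ Finset.range 11, (au f (k + 1) : ℤ)
      - 2 ^ 17 * ∑ k ∈ Finset.range 11, (au g (k + 1) : ℤ) + 11 * 2 ^ 34 := by
    have h1 : ∀ k ∈ Finset.range 11, rr f k * rr g k = (au f (k + 1) : ℤ) * au g (k + 1)
        - 2 ^ 17 * (au f (k + 1) : ℤ) - 2 ^ 17 * (au g (k + 1) : ℤ) + 2 ^ 34 := by
      intro k hk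
      rw [hr f k hk, hr g k hk]
      ring
    rw [Finset.sum_congr rfl h1, Finset.sum_add_distrib, Finset.sum_sub_distrib,
      Finset.sum_sub_distrib, Finset.mul_sum, Finset.mul_sum]
    simp
  rw [dotF, ha f, ha g, hp, md]
  push_cast
  ring

theorem val_dd {f g : F} (hf : Good f) (hg : Good g) : Val (dd f g) (dotF f g) 1 := by
  refine ⟨lo (2 ^ 48) (au f) (bu g), md f g, hi (2 ^ 48) (au f) (bu g), ?_, ?_, ?_, ?_⟩
  · have h := split (2 ^ 48) (au f) (bu g)
    rw [mid_eq hf hg] at h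
    have hA : f.A = ∑ i ∈ Finset.range 13, au f i * (2 ^ 48) ^ i := eq_sum_dg _ _
    have hB : g.B = ∑ i ∈ Finset.range 13, bu g i * (2 ^ 48) ^ i := eq_sum_dg _ _
    have h1 : dd f g = f.A * g.B := rfl
    rw [← hA, ← hB, ← pow_mul, ← pow_mul] at h
    rw [h1]
    exact h
  · rw [one_mul]
    exact lo_le _ _ (fun i hi => au_le hf hi) (fun i hi => bu_le hg hi)
  · rw [one_mul]
    exact md_le hf hg
  · rw [md_cast]
    push_cast
    ring

theorem val_end {N : ℕ} {t : ℤ} (h : Val N t 60)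
    (hb : Nat.ble (Nat.land (Nat.shiftRight N 576) 281474976710655) bnd = true) :
    t ≤ 13475945715 := by
  obtain ⟨l, v, u, h1, h2, h3, h4⟩ := h
  have hl : l < 2 ^ 576 := by
    refine lt_of_le_of_lt h2 ?_
    decide +kernel
  have hv : v < 2 ^ 48 := by
    refine lt_of_le_of_lt h3 ?_
    norm_num
  have hN : N / 2 ^ 576 = v + 2 ^ 48 * u := by
    have e : N = l + 2 ^ 576 * (v + 2 ^ 48 * u) := by
      rw [h1, mul_add, ← mul_assoc, ← pow_add, ← add_assoc]
    rw [e, Nat.add_mul_div_left _ _ (by positivity), Nat.div_eq_of_lt hl, zero_add]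
  have hs : Nat.shiftRight N 576 = v + 2 ^ 48 * u := by
    rw [← hN]
    exact Nat.shiftRight_eq_div_pow N 576
  have hm : Nat.land (v + 2 ^ 48 * u) 281474976710655 = v := by
    have := Nat.and_two_pow_sub_one_eq_mod (v + 2 ^ 48 * u) 48
    have e : (2 : ℕ) ^ 48 - 1 = 281474976710655 := by norm_num
    rw [e] at this
    refine this.trans ?_
    rw [Nat.add_mul_mod_self_left, Nat.mod_eq_of_lt hv]
  rw [hs, hm] at hb
  have hb' : v ≤ bnd := Nat.le_of_ble_eq_true hb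
  have hb2 : v ≤ 34029616930035 := hb'
  have : (v : ℤ) ≤ 34029616930035 := by exact_mod_cast hb2
  rw [h4] at this
  push_cast at this
  linarith

theorem kron : KronStmt := by
  intro C p012 p013 p023 p123 p014 p024 p124 p034 p134 p234 x0 x1 x2 x3 x4
    hq0 hq1 hq2 hq3 hq4 hx h012 h013 h023 h123 h014 h024 h124 h034 h134 h234 k0 k1 k2 k3 k4 hb
  obtain ⟨a1, a2, a3, a4, a5, a6⟩ := hq0
  obtain ⟨b1, b2, b3, b4, b5, b6⟩ := hq1
  obtain ⟨c1, c2, c3, c4, c5, c6⟩ := hq2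
  obtain ⟨d1, d2, d3, d4, d5, d6⟩ := hq3
  obtain ⟨e1, e2, e3, e4, e5, e6⟩ := hq4
  obtain ⟨f1, f2, f3, f4, f5⟩ := hx
  obtain ⟨g1, g2, g3, g4, g5, g6⟩ := h012
  obtain ⟨i1, i2, i3, i4, i5, i6⟩ := h013
  obtain ⟨j1, j2, j3, j4, j5, j6⟩ := h023
  obtain ⟨l1, l2, l3, l4, l5, l6⟩ := h123
  obtain ⟨m1, m2, m3, m4, m5, m6⟩ := h014
  obtain ⟨n1, n2, n3, n4, n5, n6⟩ := h024
  obtain ⟨o1, o2, o3, o4, o5, o6⟩ := h124
  obtain ⟨r1, r2, r3, r4, r5, r6⟩ := h034
  obtain ⟨s1, s2, s3, s4, s5, s6⟩ := h134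
  obtain ⟨t1, t2, t3, t4, t5, t6⟩ := h234
  obtain ⟨u1, u2, u3, u4, u5⟩ := k0
  obtain ⟨v1, v2, v3, v4, v5⟩ := k1
  obtain ⟨w1, w2, w3, w4, w5⟩ := k2
  obtain ⟨y1, y2, y3, y4, y5⟩ := k3
  obtain ⟨z1, z2, z3, z4, z5⟩ := k4
  have hv : Val (Nat.add (Nat.add
      (Pool.Agent.Helper86.Ac.m5 C p012 p013 p023 p123 x4)
      (m8 C p013 p014 p023 p024 p123 p124 x3 x4))
      (m9 C p012 p013 p014 p023 p024 p034 p123 p124 p134 p234 x0 x1 x2 x3 x4))
      (Pool.Agent.Helper86.Ac.z5 C p012 p013 p023 p123 x4 +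
        z8 C p013 p014 p023 p024 p123 p124 x3 x4 +
        z9 C p012 p013 p014 p023 p024 p034 p123 p124 p134 p234 x0 x1 x2 x3 x4) 60 := by
    apply Val.congr
    · unfold Pool.Agent.Helper86.Ac.m5 m8 m9 u012 u013 u023 u123 u014 u024 u124 u034 u134 u234
      repeat' apply Val.add
      all_goals (apply val_dd <;> assumption)
    · unfold Pool.Agent.Helper86.Ac.z5 z8 z9 z012 z013 z023 z123 z014 z024 z124 z034 z134 z234
      ring
    · rfl
  exact val_end hv hb

end Pool.Agent.Helper93.Ac
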